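import Mathlib
import Pool.Agent.J4.H38.SR3.Gold
import Pool.Agent.J4.H38.SR3.Fx

/-! Project DV: almost all multiples of `W` in very short intervals are sums of a prime of an ARBITRARY dense set of primes and of
a `P_2`. Definitions. -/

set_option autoImplicit false

namespace Pool.Agent.J4.H38.DV

open Finset Filter
open Pool.Agent.Y822 (ro)
open Pool.Agent.H373R2.T7 (pz)

/-- the shifts `t ≤ H` for which `N + t` is divisible by all primes `p ≤ w` -/
def AW (w N H : ℕ) : Finset ℕ := (Icc 1 H).filter (fun t => (∏ p ∈ pz w, p) ∣ N + t)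

/-- the density of one shift -/
noncomputable def GG (w y : ℕ) : ℝ := ∏ p ∈ (pz y).filter (fun p => w < p), (1 - 1 / ((p : ℝ) - 1))

/-- the sum of `f` over the `m` for which all `N - m + t`, `t ∈ T`, are rough -/
noncomputable def Fs (f : ℕ → ℝ) (N y : ℕ) (T : Finset ℕ) : ℝ := ∑ m ∈ Icc 1 N, f m * ∏ t ∈ T, ro y (N - m + t)

end Pool.Agent.J4.H38.DV
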