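import Mathlib
import Pool.Agent.J4.H38.DV.Defs

/-! Project DV, twin version: the sum of `f` over the `m` for which all `m + t`, `t ∈ T`, are rough. The shifts are the multiples of
`W` up to `H`, that is `AW w 0 H`. -/

set_option autoImplicit false

namespace Pool.Agent.J4.H38.DV

open Finset Filter
open Pool.Agent.Y822 (ro)

/-- the sum of `f` over the `m` for which all `m + t`, `t ∈ T`, are rough -/
noncomputable def Ft (f : ℕ → ℝ) (N y : ℕ) (T : Finset ℕ) : ℝ := ∑ m ∈ Icc 1 N, f m * ∏ t ∈ T, ro y (m + t)

end Pool.Agent.J4.H38.DV
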