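import Mathlib
import Pool.Agent.J4.H38.DV.Defs
import Pool.Agent.Y822.Cnt

/-! Piece DUAL of project DV (helper38), by helper46: duality with signs. -/

set_option autoImplicit false

namespace Pool.Agent.J4.H38.DV

open Finset Filter
open Pool.Agent.Y822

/-- duality for one weight and one family of functions with values in `{0, 1}` -/
theorem dual_one {M I : Type} [DecidableEq I] (s : Finset M) (B : Finset I) (a b : M → ℝ) (x : I → M → ℝ)
    (ha : ∀ m ∈ s, 0 ≤ a m ∧ a m ≤ b m) (hx : ∀ t ∈ B, ∀ m ∈ s, x t m * x t m = x t m) (hx0 : ∀ t ∈ B, ∀ m ∈ s, 0 ≤ x t m)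
    (G : ℝ) (hG : 0 ≤ G) :
    (∑ t ∈ B, |∑ m ∈ s, a m * (x t m - G)|) ^ 2 ≤
      (∑ m ∈ s, b m) * (∑ t ∈ B, (∑ m ∈ s, b m * x t m + G ^ 2 * ∑ m ∈ s, b m) +
        ∑ t ∈ B, ∑ u ∈ B.erase t, |∑ m ∈ s, b m * ((x t m - G) * (x u m - G))|) := by
  classical
  -- signs
  obtain ⟨c, hc1, hc2⟩ : ∃ c : I → ℝ, (∀ t, |c t| = 1) ∧ ∀ t, |∑ m ∈ s, a m * (x t m - G)| =
      c t * ∑ m ∈ s, a m * (x t m - G) := by
    refine ⟨fun t => if 0 ≤ ∑ m ∈ s, a m * (x t m - G) then 1 else -1, fun t => ?_, fun t => ?_⟩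
    · dsimp only; split_ifs <;> simp
    · dsimp only
      split_ifs with h
      · rw [abs_of_nonneg h, one_mul]
      · rw [abs_of_neg (not_le.1 h)]; ring
  have h1 : ∑ t ∈ B, |∑ m ∈ s, a m * (x t m - G)| = ∑ m ∈ s, a m * ∑ t ∈ B, c t * (x t m - G) := by
    rw [sum_congr rfl (fun t _ => hc2 t)]
    simp_rw [mul_sum]
    rw [sum_comm]
    refine sum_congr rfl fun m _ => sum_congr rfl fun t _ => by ring
  rw [h1]
  have h2 : (∑ m ∈ s, a m * ∑ t ∈ B, c t * (x t m - G)) ^ 2 ≤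
      (∑ m ∈ s, a m) * ∑ m ∈ s, a m * (∑ t ∈ B, c t * (x t m - G)) ^ 2 := by
    refine sum_sq_le_sum_mul_sum_of_sq_le_mul s (fun m hm => (ha m hm).1)
      (fun m hm => mul_nonneg (ha m hm).1 (sq_nonneg _)) (fun m _ => ?_)
    exact le_of_eq (by ring)
  refine h2.trans ?_
  have hA : ∑ m ∈ s, a m ≤ ∑ m ∈ s, b m := sum_le_sum fun m hm => (ha m hm).2
  have hB : ∑ m ∈ s, a m * (∑ t ∈ B, c t * (x t m - G)) ^ 2 ≤ ∑ m ∈ s, b m * (∑ t ∈ B, c t * (x t m - G)) ^ 2 :=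
    sum_le_sum fun m hm => mul_le_mul_of_nonneg_right (ha m hm).2 (sq_nonneg _)
  have hb0 : ∀ m ∈ s, 0 ≤ b m := fun m hm => (ha m hm).1.trans (ha m hm).2
  have hB0 : 0 ≤ ∑ m ∈ s, a m * (∑ t ∈ B, c t * (x t m - G)) ^ 2 :=
    sum_nonneg fun m hm => mul_nonneg (ha m hm).1 (sq_nonneg _)
  refine mul_le_mul hA (hB.trans ?_) hB0 (sum_nonneg hb0)
  -- expansion
  have h3 : ∑ m ∈ s, b m * (∑ t ∈ B, c t * (x t m - G)) ^ 2 =
      ∑ t ∈ B, ∑ u ∈ B, c t * c u * ∑ m ∈ s, b m * ((x t m - G) * (x u m - G)) := by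
    have : ∀ m ∈ s, b m * (∑ t ∈ B, c t * (x t m - G)) ^ 2 =
        ∑ t ∈ B, ∑ u ∈ B, c t * c u * (b m * ((x t m - G) * (x u m - G))) := by
      intro m _
      rw [sq, sum_mul_sum, mul_sum]
      refine sum_congr rfl fun t _ => ?_
      rw [mul_sum]
      exact sum_congr rfl fun u _ => by ring
    rw [sum_congr rfl this, sum_comm]
    refine sum_congr rfl fun t _ => ?_
    rw [sum_comm]
    exact sum_congr rfl fun u _ => by rw [mul_sum]
  rw [h3, ← sum_add_distrib]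
  refine sum_le_sum fun t ht => ?_
  rw [← add_sum_erase B _ ht]
  refine add_le_add ?_ (sum_le_sum fun u _ => ?_)
  · have hcc : c t * c t = 1 := by
      have := hc1 t
      rw [← abs_mul_abs_self (c t), this, one_mul]
    rw [hcc, one_mul, mul_sum, ← sum_add_distrib]
    refine sum_le_sum fun m hm => ?_
    have e1 : b m * ((x t m - G) * (x t m - G)) = b m * x t m + G ^ 2 * b m - 2 * G * (b m * x t m) := by
      have := hx t ht m hm
      linear_combination (b m) * this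
    rw [e1]
    have := mul_nonneg (mul_nonneg (by norm_num : (0 : ℝ) ≤ 2) hG) (mul_nonneg (hb0 m hm) (hx0 t ht m hm))
    linarith
  · refine (le_abs_self _).trans (le_of_eq ?_)
    rw [abs_mul, abs_mul, hc1, hc1, one_mul, one_mul]

lemma dual_ro_mul (y m : ℕ) : ro y m * ro y m = ro y m := by
  unfold ro; split_ifs <;> norm_num

/-- the sum of a product of weights, rough parts and one more factor -/
lemma dual_Fs_insert (f : ℕ → ℝ) (N y : ℕ) (S : Finset ℕ) {t : ℕ} (ht : t ∉ S) :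
    Fs f N y (insert t S) = ∑ m ∈ Icc 1 N, (f m * ∏ s ∈ S, ro y (N - m + s)) * ro y (N - m + t) := by
  unfold Fs
  refine sum_congr rfl fun m _ => ?_
  rw [prod_insert ht]; ring

/-- **DUAL**. -/
theorem dual (N y : ℕ) (A : Finset ℕ) (j : ℕ) (f μ : ℕ → ℝ) (hf : ∀ m, 0 ≤ f m ∧ f m ≤ μ m) (G : ℝ) (hG : 0 ≤ G) :
    (∑ S ∈ A.powersetCard j, ∑ t ∈ A \ S, |Fs f N y (insert t S) - G * Fs f N y S|) ^ 2 ≤
      (∑ S ∈ A.powersetCard j, Fs μ N y S) * ∑ S ∈ A.powersetCard j,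
        (∑ t ∈ A \ S, (Fs μ N y (insert t S) + G ^ 2 * Fs μ N y S) +
          ∑ t ∈ A \ S, ∑ u ∈ (A \ S).erase t, |Fs μ N y (insert u (insert t S)) - G * Fs μ N y (insert t S) -
            G * Fs μ N y (insert u S) + G ^ 2 * Fs μ N y S|) := by
  have hP : ∀ (S : Finset ℕ) (m : ℕ), 0 ≤ ∏ s ∈ S, ro y (N - m + s) := fun S m =>
    prod_nonneg fun _ _ => ro_nonneg _ _
  have hμ : ∀ m, 0 ≤ μ m := fun m => (hf m).1.trans (hf m).2
  have hF0 : ∀ T : Finset ℕ, 0 ≤ Fs μ N y T := fun T => sum_nonneg fun m _ => mul_nonneg (hμ m) (hP T m)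
  refine sum_sq_le_sum_mul_sum_of_sq_le_mul _ (fun S _ => hF0 S) (fun S _ => ?_) (fun S _ => ?_)
  · refine add_nonneg (sum_nonneg fun t _ => add_nonneg (hF0 _) (mul_nonneg (sq_nonneg _) (hF0 _)))
      (sum_nonneg fun t _ => sum_nonneg fun u _ => abs_nonneg _)
  · have h := dual_one (Icc 1 N) (A \ S) (fun m => f m * ∏ s ∈ S, ro y (N - m + s))
      (fun m => μ m * ∏ s ∈ S, ro y (N - m + s)) (fun t m => ro y (N - m + t))
      (fun m _ => ⟨mul_nonneg (hf m).1 (hP S m), mul_le_mul_of_nonneg_right (hf m).2 (hP S m)⟩)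
      (fun t _ m _ => dual_ro_mul _ _) (fun t _ m _ => ro_nonneg _ _) G hG
    have e1 : ∑ t ∈ A \ S, |Fs f N y (insert t S) - G * Fs f N y S| =
        ∑ t ∈ A \ S, |∑ m ∈ Icc 1 N, (f m * ∏ s ∈ S, ro y (N - m + s)) * (ro y (N - m + t) - G)| := by
      refine sum_congr rfl fun t ht => ?_
      rw [dual_Fs_insert f N y S (mem_sdiff.1 ht).2]
      congr 1
      rw [Fs, mul_sum, ← sum_sub_distrib]
      exact sum_congr rfl fun m _ => by ring
    have e2 : ∑ t ∈ A \ S, (Fs μ N y (insert t S) + G ^ 2 * Fs μ N y S) =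
        ∑ t ∈ A \ S, (∑ m ∈ Icc 1 N, (μ m * ∏ s ∈ S, ro y (N - m + s)) * ro y (N - m + t) +
          G ^ 2 * ∑ m ∈ Icc 1 N, μ m * ∏ s ∈ S, ro y (N - m + s)) := by
      refine sum_congr rfl fun t ht => ?_
      rw [dual_Fs_insert μ N y S (mem_sdiff.1 ht).2]; rfl
    have e3 : ∑ t ∈ A \ S, ∑ u ∈ (A \ S).erase t, |Fs μ N y (insert u (insert t S)) - G * Fs μ N y (insert t S) -
            G * Fs μ N y (insert u S) + G ^ 2 * Fs μ N y S| =
        ∑ t ∈ A \ S, ∑ u ∈ (A \ S).erase t, |∑ m ∈ Icc 1 N, (μ m * ∏ s ∈ S, ro y (N - m + s)) *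
          ((ro y (N - m + t) - G) * (ro y (N - m + u) - G))| := by
      refine sum_congr rfl fun t ht => sum_congr rfl fun u hu => ?_
      have ht' := (mem_sdiff.1 ht).2
      obtain ⟨hut, hu1⟩ := mem_erase.1 hu
      have hu' := (mem_sdiff.1 hu1).2
      have hu2 : u ∉ insert t S := by
        rw [mem_insert]; rintro (h | h)
        · exact hut h
        · exact hu' h
      rw [dual_Fs_insert μ N y (insert t S) hu2, dual_Fs_insert μ N y S ht', dual_Fs_insert μ N y S hu']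
      congr 1
      rw [Fs, mul_sum, mul_sum, mul_sum, ← sum_sub_distrib, ← sum_sub_distrib, ← sum_add_distrib]
      refine sum_congr rfl fun m _ => ?_
      rw [prod_insert ht']; ring
    rw [e1, e2, e3]
    exact h

end Pool.Agent.J4.H38.DV
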