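import Mathlib
import Pool.Agent.J4.H38.DV.Dual
import Pool.Agent.J4.H38.DV.TDefs

/-! Project DV, piece DUAL for the shifts `m + t` (a copy of `Dual.lean` by helper46). -/

set_option autoImplicit false

namespace Pool.Agent.J4.H38.DV

open Finset Filter
open Pool.Agent.Y822

/-- the sum of a product of weights, rough parts and one more factor -/
lemma dual_Ft_insert (f : ℕ → ℝ) (N y : ℕ) (S : Finset ℕ) {t : ℕ} (ht : t ∉ S) :
    Ft f N y (insert t S) = ∑ m ∈ Icc 1 N, (f m * ∏ s ∈ S, ro y (m + s)) * ro y (m + t) := by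
  unfold Ft
  refine sum_congr rfl fun m _ => ?_
  rw [prod_insert ht]; ring

/-- **DUAL**, twin version. -/
theorem dualT (N y : ℕ) (A : Finset ℕ) (j : ℕ) (f μ : ℕ → ℝ) (hf : ∀ m, 0 ≤ f m ∧ f m ≤ μ m) (G : ℝ) (hG : 0 ≤ G) :
    (∑ S ∈ A.powersetCard j, ∑ t ∈ A \ S, |Ft f N y (insert t S) - G * Ft f N y S|) ^ 2 ≤
      (∑ S ∈ A.powersetCard j, Ft μ N y S) * ∑ S ∈ A.powersetCard j,
        (∑ t ∈ A \ S, (Ft μ N y (insert t S) + G ^ 2 * Ft μ N y S) +
          ∑ t ∈ A \ S, ∑ u ∈ (A \ S).erase t, |Ft μ N y (insert u (insert t S)) - G * Ft μ N y (insert t S) -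
            G * Ft μ N y (insert u S) + G ^ 2 * Ft μ N y S|) := by
  have hP : ∀ (S : Finset ℕ) (m : ℕ), 0 ≤ ∏ s ∈ S, ro y (m + s) := fun S m =>
    prod_nonneg fun _ _ => ro_nonneg _ _
  have hμ : ∀ m, 0 ≤ μ m := fun m => (hf m).1.trans (hf m).2
  have hF0 : ∀ T : Finset ℕ, 0 ≤ Ft μ N y T := fun T => sum_nonneg fun m _ => mul_nonneg (hμ m) (hP T m)
  refine sum_sq_le_sum_mul_sum_of_sq_le_mul _ (fun S _ => hF0 S) (fun S _ => ?_) (fun S _ => ?_)
  · refine add_nonneg (sum_nonneg fun t _ => add_nonneg (hF0 _) (mul_nonneg (sq_nonneg _) (hF0 _)))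
      (sum_nonneg fun t _ => sum_nonneg fun u _ => abs_nonneg _)
  · have h := dual_one (Icc 1 N) (A \ S) (fun m => f m * ∏ s ∈ S, ro y (m + s))
      (fun m => μ m * ∏ s ∈ S, ro y (m + s)) (fun t m => ro y (m + t))
      (fun m _ => ⟨mul_nonneg (hf m).1 (hP S m), mul_le_mul_of_nonneg_right (hf m).2 (hP S m)⟩)
      (fun t _ m _ => dual_ro_mul _ _) (fun t _ m _ => ro_nonneg _ _) G hG
    have e1 : ∑ t ∈ A \ S, |Ft f N y (insert t S) - G * Ft f N y S| =
        ∑ t ∈ A \ S, |∑ m ∈ Icc 1 N, (f m * ∏ s ∈ S, ro y (m + s)) * (ro y (m + t) - G)| := by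
      refine sum_congr rfl fun t ht => ?_
      rw [dual_Ft_insert f N y S (mem_sdiff.1 ht).2]
      congr 1
      rw [Ft, mul_sum, ← sum_sub_distrib]
      exact sum_congr rfl fun m _ => by ring
    have e2 : ∑ t ∈ A \ S, (Ft μ N y (insert t S) + G ^ 2 * Ft μ N y S) =
        ∑ t ∈ A \ S, (∑ m ∈ Icc 1 N, (μ m * ∏ s ∈ S, ro y (m + s)) * ro y (m + t) +
          G ^ 2 * ∑ m ∈ Icc 1 N, μ m * ∏ s ∈ S, ro y (m + s)) := by
      refine sum_congr rfl fun t ht => ?_
      rw [dual_Ft_insert μ N y S (mem_sdiff.1 ht).2]; rfl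
    have e3 : ∑ t ∈ A \ S, ∑ u ∈ (A \ S).erase t, |Ft μ N y (insert u (insert t S)) - G * Ft μ N y (insert t S) -
            G * Ft μ N y (insert u S) + G ^ 2 * Ft μ N y S| =
        ∑ t ∈ A \ S, ∑ u ∈ (A \ S).erase t, |∑ m ∈ Icc 1 N, (μ m * ∏ s ∈ S, ro y (m + s)) *
          ((ro y (m + t) - G) * (ro y (m + u) - G))| := by
      refine sum_congr rfl fun t ht => sum_congr rfl fun u hu => ?_
      have ht' := (mem_sdiff.1 ht).2
      obtain ⟨hut, hu1⟩ := mem_erase.1 hu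
      have hu' := (mem_sdiff.1 hu1).2
      have hu2 : u ∉ insert t S := by
        rw [mem_insert]; rintro (h | h)
        · exact hut h
        · exact hu' h
      rw [dual_Ft_insert μ N y (insert t S) hu2, dual_Ft_insert μ N y S ht', dual_Ft_insert μ N y S hu']
      congr 1
      rw [Ft, mul_sum, mul_sum, mul_sum, ← sum_sub_distrib, ← sum_sub_distrib, ← sum_add_distrib]
      refine sum_congr rfl fun m _ => ?_
      rw [prod_insert ht']; ring
    rw [e1, e2, e3]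
    exact h

end Pool.Agent.J4.H38.DV
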