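import Mathlib
import Pool.Agent.J4.H38.DV.Defs
import Pool.Agent.J4.H38.SR2.Fix2
import Pool.Agent.Y822.CTu

/-! Project DV (helper38), piece BASE (helper30): the base, assembled from the statements of the other pieces. -/

set_option autoImplicit false

namespace Pool.Agent.J4.H38.DV

open Finset Filter
open Pool.Agent.Y822
open Pool.Agent.J4.H38.SR
open Pool.Agent.J4.H38.SR2
open Pool.Agent.H373R2.T7 (pz Vz mem_pz rhoA PerA lam_fund)

/-- statement of `rav2` -/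
def St_rav2 : Prop := ∀ (k : ℕ) (η : ℝ), 0 < η → ∃ w₀ : ℕ, 2 ≤ w₀ ∧ ∀ w : ℕ, w₀ ≤ w → ∀ᶠ N : ℕ in atTop,
    ∀ H y : ℕ, Real.log N ≤ H → H ≤ N → w ≤ y → ∀ j ≤ k,
    ∑ T ∈ (AW w N H).powersetCard j, |Pq (QW (sh N T)) y - GG w y ^ j| ≤ η * (GG w y * (AW w N H).card) ^ j

/-- statement of `gg_bd` -/
def St_gg : Prop := ∀ w y : ℕ, 2 ≤ w → w ≤ y → 1 / 2 * Vz y ≤ GG w y ∧ GG w y ≤ 1

/-- statement of `AW_card` -/
def St_AW : Prop := ∀ w N H : ℕ, ((AW w N H).card : ℝ) ≤ H ∧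
    (H : ℝ) ≤ ((∏ p ∈ pz w, p : ℕ) : ℝ) * ((AW w N H).card + 1)

/-- statement of `xcnt` -/
def St_xcnt : Prop := ∀ (k : ℕ) (η : ℝ), 0 < η → ∃ K : ℕ, 1 ≤ K ∧ ∀ U : ℕ, ∃ x0 : ℕ, ∀ᶠ N : ℕ in atTop,
    ∀ y : ℕ, x0 ≤ y → y ^ K ≤ N → ∀ T : Finset ℕ, 0 ∉ T → T.card ≤ k →
    |Fs (fun m => ArithmeticFunction.vonMangoldt m) N y T - N * Pq (QW (sh N T)) y| ≤
      η * (N * Pq (QW (sh N T)) y) + N / Real.log N ^ U

/-- statement of `stepD` -/
def St_step : Prop := ∀ j : ℕ, ∃ C : ℝ, 0 < C ∧ ∀ (N y : ℕ) (A : Finset ℕ) (f μ : ℕ → ℝ),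
    (∀ m, 0 ≤ f m ∧ f m ≤ μ m) →
    ∀ (G η n e₀ : ℝ) (P : Finset ℕ → ℝ), 0 < G → G ≤ 1 → 0 < η → η ≤ 1 → 0 ≤ n → 0 ≤ e₀ → 1 ≤ η * (G * A.card) →
    e₀ ≤ η * (n * G ^ (j + 2)) → (∀ T ⊆ A, T.card ≤ j + 2 → 0 ≤ P T ∧ |Fs μ N y T - n * P T| ≤ η * (n * P T) + e₀) →
    (∀ i ≤ j + 2, ∑ T ∈ A.powersetCard i, |P T - G ^ i| ≤ η * (G * A.card) ^ i) →
    ∑ S ∈ A.powersetCard j, ∑ t ∈ A \ S, |Fs f N y (insert t S) - G * Fs f N y S| ≤
      C * Real.sqrt η * (n * (G * A.card) ^ (j + 1))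

/-- statement of `chain` -/
def St_chain : Prop := ∀ (k : ℕ) (A : Finset ℕ) (F : Finset ℕ → ℝ) {G e n : ℝ}, 0 ≤ G → 0 ≤ e → 0 ≤ n →
    (∀ j < k, ∑ S ∈ A.powersetCard j, ∑ t ∈ A \ S, |F (insert t S) - G * F S| ≤ e * (n * (G * A.card) ^ (j + 1))) →
    ∑ D ∈ A.powersetCard k, |F D - G ^ k * F ∅| ≤ k * e * (n * (G * A.card) ^ k)

/-- `log m` on `P` -/
noncomputable def fP (P : Finset ℕ) (m : ℕ) : ℝ := if m ∈ P then Real.log m else 0

lemma fP_bd {P : Finset ℕ} {N : ℕ} (hP : P ⊆ (Icc 1 N).filter Nat.Prime) (m : ℕ) :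
    0 ≤ fP P m ∧ fP P m ≤ ArithmeticFunction.vonMangoldt m := by
  unfold fP
  split_ifs with h
  · have h1 := (mem_filter.1 (hP h)).2
    rw [ArithmeticFunction.vonMangoldt_apply_prime h1]
    exact ⟨Real.log_natCast_nonneg m, le_rfl⟩
  · exact ⟨le_rfl, ArithmeticFunction.vonMangoldt_nonneg⟩

lemma Fs_fP {P : Finset ℕ} {N : ℕ} (hP : P ⊆ (Icc 1 N).filter Nat.Prime) (y : ℕ) (T : Finset ℕ) :
    Fs (fP P) N y T = ∑ p ∈ P, Real.log p * ∏ t ∈ T, ro y (N - p + t) := by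
  have h1 : P ⊆ Icc 1 N := hP.trans (filter_subset _ _)
  unfold Fs fP
  rw [← sum_subset h1]
  · refine sum_congr rfl fun m hm => ?_
    rw [if_pos hm]
  · intro m _ hm
    rw [if_neg hm, zero_mul]

lemma prod_ro_nonneg (y N p : ℕ) (T : Finset ℕ) : 0 ≤ ∏ t ∈ T, ro y (N - p + t) :=
  prod_nonneg fun _ _ => ro_nonneg y _

/-- the main part of the sum over `P` -/
lemma half_log {P : Finset ℕ} {N : ℕ} (hP : P ⊆ (Icc 1 N).filter Nat.Prime)
    (h34 : 3 * (N : ℝ) ^ (3 / 4 : ℝ) ≤ P.card) (y : ℕ) :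
    1 / 2 * (P.card * Real.log N) ≤ Fs (fP P) N y ∅ := by
  classical
  have hN0 : 0 ≤ Real.log N := Real.log_natCast_nonneg N
  rw [Fs_fP hP]
  simp only [prod_empty, mul_one]
  obtain ⟨B, hB⟩ : ∃ B : Finset ℕ, B = P.filter (fun p : ℕ => (N : ℝ) ^ (3 / 4 : ℝ) < p) := ⟨_, rfl⟩
  obtain ⟨S, hS⟩ : ∃ S : Finset ℕ, S = P.filter (fun p : ℕ => ¬ (N : ℝ) ^ (3 / 4 : ℝ) < p) := ⟨_, rfl⟩
  have hc : B.card + S.card = P.card := by
    rw [hB, hS]
    exact card_filter_add_card_filter_not _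
  have hS1 : (S.card : ℝ) ≤ (N : ℝ) ^ (3 / 4 : ℝ) := by
    have h1 : S ⊆ Icc 1 ⌊(N : ℝ) ^ (3 / 4 : ℝ)⌋₊ := by
      intro p hp
      rw [hS, mem_filter] at hp
      have h2 := mem_Icc.1 (mem_filter.1 (hP hp.1)).1
      rw [mem_Icc]
      exact ⟨h2.1, Nat.le_floor (not_lt.1 hp.2)⟩
    have h2 := card_le_card h1
    rw [Nat.card_Icc, Nat.add_sub_cancel] at h2
    have h3 : ((⌊(N : ℝ) ^ (3 / 4 : ℝ)⌋₊ : ℕ) : ℝ) ≤ (N : ℝ) ^ (3 / 4 : ℝ) :=
      Nat.floor_le (Real.rpow_nonneg (Nat.cast_nonneg _) _)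
    exact le_trans (by exact_mod_cast h2) h3
  have hB1 : 2 / 3 * (P.card : ℝ) ≤ B.card := by
    have : (B.card : ℝ) + S.card = P.card := by exact_mod_cast hc
    linarith
  have hsum : (B.card : ℝ) * (3 / 4 * Real.log N) ≤ ∑ p ∈ B, Real.log p := by
    rw [← nsmul_eq_mul]
    apply card_nsmul_le_sum
    intro p hp
    rw [hB, mem_filter] at hp
    have hp1 := mem_Icc.1 (mem_filter.1 (hP hp.1)).1
    have hN1 : (0 : ℝ) < N := by
      have : 1 ≤ N := hp1.1.trans hp1.2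
      exact_mod_cast this
    rw [← Real.log_rpow hN1]
    exact Real.log_le_log (Real.rpow_pos_of_pos hN1 _) hp.2.le
  have hsub : ∑ p ∈ B, Real.log p ≤ ∑ p ∈ P, Real.log p := by
    apply sum_le_sum_of_subset_of_nonneg
    · rw [hB]; exact filter_subset _ _
    · intro p _ _
      exact Real.log_natCast_nonneg p
  have h5 : 1 / 2 * ((P.card : ℝ) * Real.log N) ≤ (B.card : ℝ) * (3 / 4 * Real.log N) := by
    nlinarith
  linarith

lemma Fs_le_log {P : Finset ℕ} {N : ℕ} (hP : P ⊆ (Icc 1 N).filter Nat.Prime) (y : ℕ) (T : Finset ℕ) :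
    Fs (fP P) N y T ≤ Real.log N * ∑ p ∈ P, ∏ t ∈ T, ro y (N - p + t) := by
  rw [Fs_fP hP, mul_sum]
  refine sum_le_sum fun p hp => ?_
  have h2 := mem_Icc.1 (mem_filter.1 (hP hp)).1
  apply mul_le_mul_of_nonneg_right _ (prod_ro_nonneg y N p T)
  exact Real.log_le_log (by exact_mod_cast h2.1) (by exact_mod_cast h2.2)

lemma ev_34 (δ : ℝ) (hδ : 0 < δ) : ∀ᶠ N : ℕ in atTop,
    3 * (N : ℝ) ^ (3 / 4 : ℝ) ≤ δ * (N / Real.log N) := by
  have h1 := (isLittleO_log_rpow_atTop (r := 1 / 4) (by norm_num)).bound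
    (show (0 : ℝ) < δ / 3 by positivity)
  have h2 := (tendsto_natCast_atTop_atTop (R := ℝ)).eventually h1
  filter_upwards [h2, eventually_ge_atTop 3] with N h3 hN
  have hN0 : (0 : ℝ) < N := by exact_mod_cast (by omega : 0 < N)
  have hlog : 0 < Real.log N := Real.log_pos (by exact_mod_cast (by omega : 1 < N))
  rw [Real.norm_of_nonneg hlog.le, Real.norm_of_nonneg (Real.rpow_nonneg hN0.le _)] at h3
  rw [mul_div_assoc', le_div_iff₀ hlog]
  have h4 : (N : ℝ) ^ (3 / 4 : ℝ) * (N : ℝ) ^ (1 / 4 : ℝ) = N := by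
    rw [← Real.rpow_add hN0]
    norm_num
  have h5 : 0 < (N : ℝ) ^ (3 / 4 : ℝ) := Real.rpow_pos_of_pos hN0 _
  calc 3 * (N : ℝ) ^ (3 / 4 : ℝ) * Real.log N ≤ 3 * (N : ℝ) ^ (3 / 4 : ℝ) * (δ / 3 * (N : ℝ) ^ (1 / 4 : ℝ)) := by
        apply mul_le_mul_of_nonneg_left h3 (by positivity)
    _ = δ * ((N : ℝ) ^ (3 / 4 : ℝ) * (N : ℝ) ^ (1 / 4 : ℝ)) := by ring
    _ = δ * N := by rw [h4]

theorem baseD' (hrav2 : St_rav2) (hgg : St_gg) (hAW : St_AW) (hx : St_xcnt) (hstep : St_step) (hchain : St_chain)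
    (k : ℕ) (δ ε : ℝ) (hδ : 0 < δ) (hε : 0 < ε) : ∃ w : ℕ, 2 ≤ w ∧ ∃ κ₀ : ℝ, 0 < κ₀ ∧ ∀ κ : ℝ, 0 < κ → κ ≤ κ₀ →
    ∃ Λ : ℝ, 0 < Λ ∧ ∀ᶠ N : ℕ in atTop, ∀ y : ℕ, (y : ℝ) < (N : ℝ) ^ κ → (N : ℝ) ^ κ ≤ y + 1 →
    ∀ H : ℕ, Λ * Real.log N ≤ H → H ≤ N → ∀ P ⊆ (Icc 1 N).filter Nat.Prime, δ * (N / Real.log N) ≤ P.card →
    ∀ Bad : Finset (Finset ℕ), (∀ D ∈ Bad, D ∈ (AW w N H).powersetCard k ∧
      ∑ p ∈ P, ∏ t ∈ D, ro y (N - p + t) < 1 / 8 * (P.card * GG w y ^ k)) →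
    (Bad.card : ℝ) ≤ ε * ((AW w N H).card : ℝ) ^ k := by
  classical
  choose Cj hCj hstep' using hstep
  obtain ⟨C, hC⟩ : ∃ C : ℝ, C = 1 + ∑ j ∈ range k, Cj j := ⟨_, rfl⟩
  have hC1 : ∀ j < k, Cj j ≤ C := by
    intro j hj
    have h1 : Cj j ≤ ∑ j ∈ range k, Cj j :=
      single_le_sum (f := Cj) (fun i _ => (hCj i).le) (mem_range.2 hj)
    rw [hC]
    linarith
  have hC0 : 0 < C := by
    have h1 : 0 ≤ ∑ j ∈ range k, Cj j := sum_nonneg fun i _ => (hCj i).le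
    rw [hC]
    linarith
  -- the parameter `η`
  obtain ⟨s, hs⟩ : ∃ s : ℝ, s = min 1 (3 * δ * ε / (8 * (k + 1) * C)) := ⟨_, rfl⟩
  have hs0 : 0 < s := by
    rw [hs]
    exact lt_min one_pos (by positivity)
  have hs1 : s ≤ 1 := by rw [hs]; exact min_le_left _ _
  have hs2 : s ≤ 3 * δ * ε / (8 * (k + 1) * C) := by rw [hs]; exact min_le_right _ _
  obtain ⟨η, hη⟩ : ∃ η : ℝ, η = s ^ 2 := ⟨_, rfl⟩
  have hη0 : 0 < η := by rw [hη]; positivity
  have hη1 : η ≤ 1 := by rw [hη]; exact pow_le_one₀ hs0.le hs1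
  have hsq : Real.sqrt η = s := by rw [hη]; exact Real.sqrt_sq hs0.le
  obtain ⟨w, hw2, hw⟩ := hrav2 (k + 1) η hη0
  obtain ⟨K, hK1, hxK⟩ := hx (k + 1) η hη0
  obtain ⟨x0, hx0⟩ := hxK (k + 2)
  obtain ⟨c0, hc0, hV⟩ := Vz_sharp
  obtain ⟨W, hW⟩ : ∃ W : ℕ, W = ∏ p ∈ pz w, p := ⟨_, rfl⟩
  have hW1 : 1 ≤ W := by
    rw [hW]
    exact Nat.one_le_iff_ne_zero.2 (prod_ne_zero_iff.2 fun p hp => (mem_pz.1 hp).2.ne_zero)
  have hWr : (1 : ℝ) ≤ W := by exact_mod_cast hW1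
  refine ⟨w, hw2, 1 / K, by positivity, fun κ hκ hκ1 => ?_⟩
  refine ⟨W * (2 * κ / (c0 * η) + 1), by positivity, ?_⟩
  have hlim : Tendsto (fun N : ℕ => Real.log (N : ℝ)) atTop atTop :=
    Real.tendsto_log_atTop.comp (tendsto_natCast_atTop_atTop (R := ℝ))
  have hpow : Tendsto (fun N : ℕ => (N : ℝ) ^ κ) atTop atTop :=
    (tendsto_rpow_atTop hκ).comp (tendsto_natCast_atTop_atTop (R := ℝ))
  filter_upwards [hw w le_rfl, hx0, ev_34 δ hδ, hlim.eventually_ge_atTop 1,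
    hlim.eventually_ge_atTop (1 / (η * (c0 / (2 * κ)) ^ (k + 1))),
    hpow.eventually_ge_atTop (((max x0 (max w 3) : ℕ) : ℝ) + 1), eventually_ge_atTop 2]
    with N hN1 hN2 hN3 hN4 hN5 hN6 hN7
  intro y hy1 hy2 H hH1 hH2 P hP hPc Bad hBad
  -- facts on `y`
  have hymax : max x0 (max w 3) ≤ y := by
    have h1 : ((max x0 (max w 3) : ℕ) : ℝ) ≤ y := by linarith
    exact_mod_cast h1
  have hyx : x0 ≤ y := (le_max_left _ _).trans hymax
  have hyw : w ≤ y := ((le_max_left _ _).trans (le_max_right _ _)).trans hymax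
  have hy3 : 3 ≤ y := ((le_max_right _ _).trans (le_max_right _ _)).trans hymax
  have hNr : (1 : ℝ) < N := by exact_mod_cast (by omega : 1 < N)
  have hN0 : (0 : ℝ) < N := by linarith
  have hL0 : 0 < Real.log N := by linarith
  have hyK : y ^ K ≤ N := by
    have h1 : (y : ℝ) ^ K ≤ N := by
      calc (y : ℝ) ^ K ≤ ((N : ℝ) ^ κ) ^ K := pow_le_pow_left₀ (Nat.cast_nonneg _) hy1.le K
        _ = (N : ℝ) ^ (κ * K) := by rw [Real.rpow_mul hN0.le, Real.rpow_natCast]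
        _ ≤ (N : ℝ) ^ (1 : ℝ) := by
            apply Real.rpow_le_rpow_of_exponent_le hNr.le
            have hK0 : (0 : ℝ) < K := by exact_mod_cast hK1
            calc κ * K ≤ 1 / K * K := mul_le_mul_of_nonneg_right hκ1 hK0.le
              _ = 1 := by field_simp
        _ = N := Real.rpow_one _
    exact_mod_cast h1
  have hlogy : Real.log y ≤ κ * Real.log N := by
    rw [← Real.log_rpow hN0]
    exact Real.log_le_log (by exact_mod_cast (by omega : 0 < y)) hy1.le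
  have hlogy0 : 0 < Real.log y := Real.log_pos (by exact_mod_cast (by omega : 1 < y))
  -- the density
  obtain ⟨G, hG⟩ : ∃ G : ℝ, G = GG w y := ⟨_, rfl⟩
  obtain ⟨hG1, hG2⟩ := hgg w y hw2 hyw
  rw [← hG] at hG1 hG2
  have hGlow : c0 / (2 * κ) / Real.log N ≤ G := by
    have h1 := hV y hy3
    have h2 : c0 / (κ * Real.log N) ≤ c0 / Real.log y :=
      div_le_div_of_nonneg_left hc0.le hlogy0 hlogy
    have h3 : c0 / (2 * κ) / Real.log N = 1 / 2 * (c0 / (κ * Real.log N)) := by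
      field_simp
    rw [h3]
    linarith
  have hG0 : 0 < G := lt_of_lt_of_le (by positivity) hGlow
  -- the number of the shifts
  obtain ⟨A, hA⟩ : ∃ A : Finset ℕ, A = AW w N H := ⟨_, rfl⟩
  have hAc := (hAW w N H).2
  rw [← hA, ← hW] at hAc
  have hcard : 2 * κ / (c0 * η) * Real.log N ≤ A.card := by
    have h1 : (W : ℝ) * (2 * κ / (c0 * η) + 1) * Real.log N ≤ W * (A.card + 1) := hH1.trans hAc
    have h2 : (2 * κ / (c0 * η) + 1) * Real.log N ≤ A.card + 1 := by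
      have h3 : (W : ℝ) * ((2 * κ / (c0 * η) + 1) * Real.log N) ≤ W * (A.card + 1) := by
        rw [← mul_assoc]; exact h1
      exact le_of_mul_le_mul_left h3 (by linarith)
    have h4 : (2 * κ / (c0 * η) + 1) * Real.log N = 2 * κ / (c0 * η) * Real.log N + Real.log N := by ring
    linarith
  have hone : 1 ≤ η * (G * A.card) := by
    have h1 : c0 / (2 * κ) / Real.log N * (2 * κ / (c0 * η) * Real.log N) ≤ G * A.card :=
      mul_le_mul hGlow hcard (by positivity) hG0.le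
    have h2 : c0 / (2 * κ) / Real.log N * (2 * κ / (c0 * η) * Real.log N) = 1 / η := by
      field_simp
    rw [h2] at h1
    calc (1 : ℝ) = η * (1 / η) := by field_simp
      _ ≤ η * (G * A.card) := mul_le_mul_of_nonneg_left h1 hη0.le
  have hlogH : Real.log N ≤ H := by
    refine le_trans ?_ hH1
    have h1 : (1 : ℝ) ≤ W * (2 * κ / (c0 * η) + 1) := by
      have h2 : (1 : ℝ) ≤ 2 * κ / (c0 * η) + 1 := by
        have : 0 ≤ 2 * κ / (c0 * η) := by positivity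
        linarith
      nlinarith
    nlinarith
  -- the error term
  have he0 : ∀ i ≤ k + 1, (N : ℝ) / Real.log N ^ (k + 2) ≤ η * (N * G ^ i) := by
    intro i hi
    have h1 : G ^ (k + 1) ≤ G ^ i := pow_le_pow_of_le_one hG0.le hG2 hi
    have h2 : (c0 / (2 * κ)) ^ (k + 1) / Real.log N ^ (k + 1) ≤ G ^ (k + 1) := by
      rw [← div_pow]
      exact pow_le_pow_left₀ (by positivity) hGlow _
    have h3 : 1 ≤ η * (c0 / (2 * κ)) ^ (k + 1) * Real.log N := by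
      have h4 : 0 < η * (c0 / (2 * κ)) ^ (k + 1) := by positivity
      rw [div_le_iff₀ h4] at hN5
      linarith
    have h5 : 1 / Real.log N ^ (k + 2) ≤ η * ((c0 / (2 * κ)) ^ (k + 1) / Real.log N ^ (k + 1)) := by
      rw [div_le_iff₀ (by positivity), pow_succ (Real.log N) (k + 1)]
      have h6 : η * ((c0 / (2 * κ)) ^ (k + 1) / Real.log N ^ (k + 1)) *
          (Real.log N ^ (k + 1) * Real.log N) = η * (c0 / (2 * κ)) ^ (k + 1) * Real.log N := by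
        field_simp
      rw [h6]
      exact h3
    calc (N : ℝ) / Real.log N ^ (k + 2) = N * (1 / Real.log N ^ (k + 2)) := by ring
      _ ≤ N * (η * ((c0 / (2 * κ)) ^ (k + 1) / Real.log N ^ (k + 1))) :=
          mul_le_mul_of_nonneg_left h5 hN0.le
      _ ≤ N * (η * G ^ i) := by
          apply mul_le_mul_of_nonneg_left _ hN0.le
          exact mul_le_mul_of_nonneg_left (h2.trans h1) hη0.le
      _ = η * (N * G ^ i) := by ring
  -- the steps
  have hsteps : ∀ j < k, ∑ S ∈ A.powersetCard j, ∑ t ∈ A \ S,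
      |Fs (fP P) N y (insert t S) - G * Fs (fP P) N y S| ≤ (C * s) * (N * (G * A.card) ^ (j + 1)) := by
    intro j hj
    have h1 := hstep' j N y A (fP P) (fun m => ArithmeticFunction.vonMangoldt m) (fP_bd hP) G η N
      (N / Real.log N ^ (k + 2)) (fun T => Pq (QW (sh N T)) y) hG0 hG2 hη0 hη1 hN0.le (by positivity)
      hone (he0 _ (by omega)) ?_ ?_
    · refine h1.trans ?_
      rw [hsq]
      apply mul_le_mul_of_nonneg_right _ (by positivity)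
      exact mul_le_mul_of_nonneg_right (hC1 j hj) hs0.le
    · intro T hT hTc
      refine ⟨(Pq_bd _ _).1, hN2 y hyx hyK T ?_ (by omega)⟩
      intro h0
      have h2 := hT h0
      rw [hA] at h2
      unfold AW at h2
      rw [mem_filter, mem_Icc] at h2
      omega
    · intro i hi
      have h2 := hN1 H y hlogH hH2 hyw i (by omega)
      rw [← hA, ← hG] at h2
      exact h2
  have hch := hchain k A (Fs (fP P) N y) hG0.le (by positivity : 0 ≤ C * s) hN0.le hsteps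
  -- bad sets
  have hlow : ∀ D ∈ Bad, 3 / 8 * (δ * N) * G ^ k ≤ |Fs (fP P) N y D - G ^ k * Fs (fP P) N y ∅| := by
    intro D hD
    have h1 := (hBad D hD).2
    rw [← hG] at h1
    have h2 := Fs_le_log hP y D
    have h3 := half_log hP (hN3.trans hPc) y
    have hGk : 0 < G ^ k := by positivity
    have h4 : Fs (fP P) N y D ≤ 1 / 8 * (P.card * G ^ k) * Real.log N := by
      refine h2.trans ?_
      rw [mul_comm]
      exact mul_le_mul_of_nonneg_right h1.le hL0.le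
    have h5 : G ^ k * (1 / 2 * (P.card * Real.log N)) ≤ G ^ k * Fs (fP P) N y ∅ :=
      mul_le_mul_of_nonneg_left h3 hGk.le
    have h6 : δ * N ≤ P.card * Real.log N := by
      rw [mul_div_assoc', div_le_iff₀ hL0] at hPc
      exact hPc
    have h7 : 3 / 8 * (δ * N) * G ^ k ≤ 3 / 8 * (P.card * Real.log N) * G ^ k := by
      apply mul_le_mul_of_nonneg_right _ hGk.le
      linarith
    rw [abs_sub_comm]
    refine le_trans ?_ (le_abs_self _)
    nlinarith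
  have hsum : (Bad.card : ℝ) * (3 / 8 * (δ * N) * G ^ k) ≤
      ∑ D ∈ A.powersetCard k, |Fs (fP P) N y D - G ^ k * Fs (fP P) N y ∅| := by
    rw [← nsmul_eq_mul]
    refine (card_nsmul_le_sum Bad _ _ hlow).trans ?_
    apply sum_le_sum_of_subset_of_nonneg
    · intro D hD
      rw [hA]
      exact (hBad D hD).1
    · intro D _ _
      exact abs_nonneg _
  have hfin := hsum.trans hch
  rw [← hA]
  have hGk : 0 < G ^ k := by positivity
  have h8 : (Bad.card : ℝ) * (3 / 8 * δ) ≤ k * (C * s) * (A.card : ℝ) ^ k := by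
    have h9 : (Bad.card : ℝ) * (3 / 8 * δ) * (N * G ^ k) ≤ k * (C * s) * (A.card : ℝ) ^ k * (N * G ^ k) := by
      calc (Bad.card : ℝ) * (3 / 8 * δ) * (N * G ^ k) = (Bad.card : ℝ) * (3 / 8 * (δ * N) * G ^ k) := by ring
        _ ≤ _ := hfin
        _ = k * (C * s) * (A.card : ℝ) ^ k * (N * G ^ k) := by rw [mul_pow]; ring
    exact le_of_mul_le_mul_right h9 (by positivity)
  have h10 : (k : ℝ) * (C * s) ≤ 3 / 8 * δ * ε := by
    have h11 : C * s ≤ 3 * δ * ε / (8 * (k + 1)) := by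
      calc C * s ≤ C * (3 * δ * ε / (8 * (k + 1) * C)) := mul_le_mul_of_nonneg_left hs2 hC0.le
        _ = 3 * δ * ε / (8 * (k + 1)) := by field_simp
    calc (k : ℝ) * (C * s) ≤ (k + 1) * (3 * δ * ε / (8 * (k + 1))) := by
          apply mul_le_mul _ h11 (by positivity) (by positivity)
          linarith
      _ = 3 / 8 * δ * ε := by field_simp
  have h12 : (Bad.card : ℝ) * (3 / 8 * δ) ≤ 3 / 8 * δ * ε * (A.card : ℝ) ^ k :=
    h8.trans (mul_le_mul_of_nonneg_right h10 (by positivity))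
  have h13 : (Bad.card : ℝ) * (3 / 8 * δ) ≤ (ε * (A.card : ℝ) ^ k) * (3 / 8 * δ) := by linarith
  exact le_of_mul_le_mul_right h13 (by positivity)

end Pool.Agent.J4.H38.DV
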