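import Mathlib
import Pool.Agent.J4.H38.DV.Defs
import Pool.Agent.J4.H38.DV.TDefs
import Pool.Agent.J4.H31.DV.Rav2
import Pool.Agent.J4.H31.DV.Rav1
import Pool.Agent.J4.H31.DV.StepD
import Pool.Agent.J4.H31.DV.TStep
import Pool.Agent.J4.H14.DV.Sm
import Pool.Agent.J4.H56.DV.Chain
import Pool.Agent.J4.H38.DV.Base
import Pool.Agent.J4.H38.DV.Dual
import Pool.Agent.J4.H38.DV.TDual
import Pool.Agent.J4.H38.DV.TX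
import Pool.Agent.J4.H55.DV.TRav
import Pool.Agent.J4.H55.DV.TBase

/-! Project DV: the proved pieces under common names. -/

set_option autoImplicit false

namespace Pool.Agent.J4.H38.DV

open Finset Filter
open Pool.Agent.Y822
open Pool.Agent.J4.H38.SR
open Pool.Agent.J4.H38.SR2
open Pool.Agent.H373R2.T7 (pz Vz mem_pz rhoA PerA lam_fund)

theorem gg_bd : ∀ w y : ℕ, 2 ≤ w → w ≤ y → 1 / 2 * Vz y ≤ GG w y ∧ GG w y ≤ 1 := Pool.Agent.J4.H14.DV.gg_bd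

theorem AW_card (w N H : ℕ) : ((AW w N H).card : ℝ) ≤ H ∧
    (H : ℝ) ≤ ((∏ p ∈ pz w, p : ℕ) : ℝ) * ((AW w N H).card + 1) := Pool.Agent.J4.H14.DV.AW_card w N H

/-- the base, for the differences `N + t - p` -/
theorem baseD (k : ℕ) (δ ε : ℝ) (hδ : 0 < δ) (hε : 0 < ε) : ∃ w : ℕ, 2 ≤ w ∧ ∃ κ₀ : ℝ, 0 < κ₀ ∧ ∀ κ : ℝ, 0 < κ → κ ≤ κ₀ →
    ∃ Λ : ℝ, 0 < Λ ∧ ∀ᶠ N : ℕ in atTop, ∀ y : ℕ, (y : ℝ) < (N : ℝ) ^ κ → (N : ℝ) ^ κ ≤ y + 1 →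
    ∀ H : ℕ, Λ * Real.log N ≤ H → H ≤ N → ∀ P ⊆ (Icc 1 N).filter Nat.Prime, δ * (N / Real.log N) ≤ P.card →
    ∀ Bad : Finset (Finset ℕ), (∀ D ∈ Bad, D ∈ (AW w N H).powersetCard k ∧
      ∑ p ∈ P, ∏ t ∈ D, ro y (N - p + t) < 1 / 8 * (P.card * GG w y ^ k)) →
    (Bad.card : ℝ) ≤ ε * ((AW w N H).card : ℝ) ^ k :=
  baseD' (Pool.Agent.J4.H31.DV.rav2_of Pool.Agent.J4.H31.DV.rav1) gg_bd AW_card Pool.Agent.J4.H14.DV.xcnt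
    Pool.Agent.J4.H31.DV.stepD (fun k A F _ _ _ => Pool.Agent.J4.H56.DV.chain k A F) k δ ε hδ hε

/-- the base, for the sums `p + t` -/
theorem baseDT (k : ℕ) (δ ε : ℝ) (hδ : 0 < δ) (hε : 0 < ε) : ∃ w : ℕ, 2 ≤ w ∧ ∃ κ₀ : ℝ, 0 < κ₀ ∧ ∀ κ : ℝ, 0 < κ → κ ≤ κ₀ →
    ∃ Λ : ℝ, 0 < Λ ∧ ∀ᶠ N : ℕ in atTop, ∀ y : ℕ, (y : ℝ) < (N : ℝ) ^ κ → (N : ℝ) ^ κ ≤ y + 1 →
    ∀ H : ℕ, Λ * Real.log N ≤ H → H ≤ N → ∀ P ⊆ (Icc 1 N).filter Nat.Prime, δ * (N / Real.log N) ≤ P.card →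
    ∀ Bad : Finset (Finset ℕ), (∀ D ∈ Bad, D ∈ (AW w 0 H).powersetCard k ∧
      ∑ p ∈ P, ∏ t ∈ D, ro y (p + t) < 1 / 8 * (P.card * GG w y ^ k)) →
    (Bad.card : ℝ) ≤ ε * ((AW w 0 H).card : ℝ) ^ k :=
  Pool.Agent.J4.H55.DV.baseDT' Pool.Agent.J4.H55.DV.ravT2 gg_bd AW_card xcntT
    (Pool.Agent.J4.H31.DV.stepDT_of dualT) (fun k A F _ _ _ => Pool.Agent.J4.H56.DV.chain k A F) k δ ε hδ hε

end Pool.Agent.J4.H38.DV
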