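import Mathlib
import Pool.Agent.J4.H38.DV.TDefs
import Pool.Agent.J4.H38.SR2.Fix2
import Pool.Agent.J4.H38.SR2.Gold1

/-! Project DV, twin version: the count with the von Mangoldt function (after `J4/H14/DV/Sm.lean`). -/

set_option autoImplicit false

namespace Pool.Agent.J4.H38.DV

open Finset Filter
open Pool.Agent.Y822
open Pool.Agent.J4.H38.SR
open Pool.Agent.J4.H38.SR2
open Pool.Agent.H373R2.T7 (pz Vz mem_pz rhoA PerA lam_fund)

lemma sh_zero (T : Finset ℕ) : sh 0 T = T := by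
  unfold sh
  simp

lemma Pq_QT {T : Finset ℕ} (h0 : 0 ∉ T) (y : ℕ) : Pq (QT T) y = Pq (QW (sh 0 T)) y := by
  unfold Pq
  refine prod_congr rfl fun p hp => ?_
  have hpp := (mem_pz.1 hp).2
  have h1 := rho_pat h0 p hpp
  have h2 := rho_W (sh 0 T) p hpp
  rw [sh_zero] at h2 ⊢
  have h3 : rhoA (QT T) p = rhoA (QW T) p := by omega
  rw [h3]

theorem xcntT (k : ℕ) (η : ℝ) (hη : 0 < η) : ∃ K : ℕ, 1 ≤ K ∧ ∀ U : ℕ, ∃ x0 : ℕ, ∀ᶠ N : ℕ in atTop, ∀ y : ℕ, x0 ≤ y →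
    y ^ K ≤ N → ∀ T : Finset ℕ, 0 ∉ T → T.card ≤ k →
    |Ft (fun m => ArithmeticFunction.vonMangoldt m) N y T - N * Pq (QW (sh 0 T)) y| ≤
      η * (N * Pq (QW (sh 0 T)) y) + N / Real.log N ^ U := by
  classical
  obtain ⟨K, hK, h⟩ := lam_fund (k + 1) (by omega) η hη
  refine ⟨K, hK, fun U => ?_⟩
  obtain ⟨x0, hx0⟩ := h U
  refine ⟨x0, Eventually.of_forall fun N y hy hyN T h0 hT => ?_⟩
  have hper : PerA (QT T) (k + 1) := by
    have h1 := perA_QT h0 T.card rfl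
    exact ⟨h1.per, fun p hp => (h1.few p hp).trans (by omega)⟩
  have h1 := hx0 N y hy hyN (QT T) hper N le_rfl
  have h2 : Ft (fun m => ArithmeticFunction.vonMangoldt m) N y T =
      ∑ n ∈ (Icc 1 N).filter (fun n : ℕ => ∀ p ∈ pz y, ¬ QT T p n), ArithmeticFunction.vonMangoldt n := by
    unfold Ft
    rw [sum_filter]
    refine sum_congr rfl fun m hm => ?_
    have key : (∀ p ∈ pz y, ¬ QT T p m) ↔ ∀ t ∈ T, Ro y (m + t) := by
      unfold QT Ro
      constructor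
      · intro h3 t ht p hp hpy hd
        exact h3 p (mem_pz.2 ⟨hpy, hp⟩) ⟨t, ht, hd⟩
      · rintro h3 p hp ⟨t, ht, hd⟩
        exact h3 t ht p (mem_pz.1 hp).2 (mem_pz.1 hp).1 hd
    by_cases hh : ∀ t ∈ T, Ro y (m + t)
    · rw [if_pos (key.2 hh), prod_eq_one, mul_one]
      intro t ht
      unfold ro
      rw [if_pos (hh t ht)]
    · rw [if_neg (fun h4 => hh (key.1 h4))]
      push Not at hh
      obtain ⟨t, ht, hn⟩ := hh
      rw [prod_eq_zero ht, mul_zero]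
      unfold ro
      rw [if_neg hn]
  rw [h2, ← Pq_QT h0]
  unfold Pq
  exact h1

end Pool.Agent.J4.H38.DV
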